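import Pool.Agent.Lib.MP_8f36f1_lc.Char

/-!
# MP_8f36f1_lc: a combinatorial characterization

For every cardinal `κ` the topological question whether there is an example with a witnessing
family of size at most `κ` is equivalent to a purely combinatorial statement about `κ`
equivalence relations on `ω₁`.
-/

open Set Cardinal Topology

universe u

namespace Pool.Agent.Results.MP_8f36f1_lc.Characterization

open Pool.Agent.Lib.MP_8f36f1_lc

theorem result (κ : Cardinal.{u}) :
    List.TFAE [HasExample κ, HasGoodExample κ, HasFamily κ, HasIdeal κ] :=
  tfae_example κ

end Pool.Agent.Results.MP_8f36f1_lc.Characterization
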