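import Mathlib
import Pool.Agent.Lib.MP_8f36f1_h17.Fwd
import Pool.Agent.Lib.MP_8f36f1_h17.Gap

open Cardinal Set

universe u

namespace Pool.Agent.Results.MP_8f36f1_lc.CoveringGap

open Pool.Agent.Lib.MP_8f36f1_h17

/-- In ZFC: let fewer than `2 ^ ℵ₁` basic functions witness the normality of `Y` and let `Y` be
not separated. Then there are cardinals `κ < μ` such that `κ` has cofinality `ω₁`,
`ℵ_{ω₁} ≤ κ ≤ 2 ^ ℵ₀`, `μ ≤ |F|` and `μ < cov (κ, ℵ₂, ℵ₂, ℵ₁)`. In particular `Y` is separated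
if `|F| < 2 ^ ℵ₁` and `|F| ≤ ℵ_{ω₁}`, and also if `|F| < 2 ^ ℵ₁` and `2 ^ ℵ₀ < ℵ_{ω₁}`. -/
theorem result (X : Type u) [TopologicalSpace X] (Y : Set X) (B : Y → Set (Set X))
    (F : Set (Y → Set X)) (hY : Setting Y B) (hF : WitnessingFamily B F)
    (hlt : #F < 2 ^ ℵ_ 1) (hsep : ¬ Separated Y) :
    ∃ (K : Type u) (μ : Cardinal.{u}), (#K).ord.cof = ℵ_ 1 ∧ ℵ_ (Ordinal.omega 1) ≤ #K ∧
      #K ≤ 2 ^ ℵ₀ ∧ #K < μ ∧ μ ≤ #F ∧ μ < covNumber K := by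
  have hns : ¬ Small (linkFamily F) univ := fun h => hsep (separated_of_small hY hF h)
  obtain ⟨K, L, h1, h2, h3, h4, h5, h6⟩ :=
    exists_gap (linkFamily F) hY.card (measures_linkFamily hF) hns hlt
  refine ⟨K, #L, h1, h2, ?_, h4, h5, h6⟩
  rw [Cardinal.two_power_aleph0]
  exact h3

end Pool.Agent.Results.MP_8f36f1_lc.CoveringGap
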