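import Pool.Agent.Lib.MP_8f36f1_lc.Least

/-!
# MP_8f36f1_lc: the least size of a witnessing family without separation

The least size `n` of a family witnessing the normality of a closed discrete set of size `ℵ₁`
which is not separated exists and is at most `2 ^ ℵ₁`; it is at least the dominating number of
`ω₁`, the reaping number of `ω₁` and the covering number of the meagre ideal, and its cofinality
is at least `ℵ₂`.
-/

open Set Cardinal Topology

universe u

namespace Pool.Agent.Results.MP_8f36f1_lc.LeastSize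

open Pool.Agent.Lib.MP_8f36f1_lc

theorem result :
    HasExample leastSize.{u} ∧ leastSize.{u} ≤ (2 : Cardinal.{u}) ^ (ℵ₁ : Cardinal.{u}) ∧
    domOne.{u} ≤ leastSize.{u} ∧ reapOne.{u} ≤ leastSize.{u} ∧
    Cardinal.lift.{u} covMeagre ≤ leastSize.{u} ∧
    (ℵ₁ : Cardinal.{u}) < (leastSize.{u}).ord.cof := by
  obtain ⟨ι, E, I, h1, h2, h3, h4, h5⟩ := exists_ideal_leastSize.{u}
  refine ⟨hasExample_leastSize, leastSize_le_power, ?_, ?_, ?_, lt_cof_leastSize⟩
  · rw [← h1]
    exact domOne_le h3 h4 h5
  · rw [← h1]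
    exact reapOne_le h2 h3 h4 h5
  · rw [← h1]
    exact covMeagre_le h2 h3 h4 h5

end Pool.Agent.Results.MP_8f36f1_lc.LeastSize
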