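import Mathlib
import Pool.Agent.Lib.MP_8f36f1_h17.Fwd
import Pool.Agent.Lib.MP_8f36f1_h17.Thin

open Cardinal Set

universe u

namespace Pool.Agent.Results.MP_8f36f1_lc.WeaklySep

open Pool.Agent.Lib.MP_8f36f1_h17

/-- In ZFC: if fewer than `2 ^ ℵ₁` basic functions witness the normality of `Y`, then `Y` is
weakly separated. -/
theorem result (X : Type u) [TopologicalSpace X] (Y : Set X) (B : Y → Set (Set X))
    (F : Set (Y → Set X)) (hY : Setting Y B) (hF : WitnessingFamily B F)
    (hlt : #F < 2 ^ ℵ_ 1) : WeaklySeparated Y := by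
  by_contra h
  exact absurd (two_pow_le_of_thin hY.card (linkFamily F) (measures_linkFamily hF)
    (fun f => countable_classes hY hF h f.1 f.2)) (not_le.2 hlt)

end Pool.Agent.Results.MP_8f36f1_lc.WeaklySep
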